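import Mathlib
import Pool.Agent.Y463.SV.Main

/-!
# Virtual string links all of whose stacks are non-monotone, up to self-virtualization

Diagrams (`StringLinkDiagram`), the generalized Reidemeister moves (`Move`), self-virtualization
(`SelfVirtualization`), the quotient `vSLsv n` and the diagrams `braidDiagram w` of virtual pure
braid words are those of the library `Pool.Agent.H297R3`. The quotient `bareSL n` of `vSL_n^sv`, in
which crossing changes and virtualizations of crossings are allowed as well, and stacking are
defined in `Pool.Agent.Y463.SV.Defs`.

For `n ≥ 4` there is a diagram `D` (it has four classical crossings) such that no diagram obtained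
by stacking other string link diagrams below and above `D` is equivalent to a monotone one, not even
in `bareSL n`. In particular `D` has neither a left inverse nor a right inverse.
-/

set_option autoImplicit false

namespace Pool.Agent.Results.MP_a283c1_gt.NonMonotoneIdeal

open Pool.Agent.Helper718.VB
open Pool.Agent.H297R3.SL
open Pool.Agent.Y463.SV

theorem result : ∀ n : ℕ, 4 ≤ n → ∃ D : StringLinkDiagram n,
    (∀ (w : List (Letter n)) (hw : toVB w ∈ vP n),
      (Quot.mk _ D : vSLsv n) ≠ Quot.mk _ ⟨braidDiagram w, braid_isStringLink w hw⟩) ∧
    NeverMonotone D ∧
      (∀ E : StringLinkDiagram n, NeverMonotone (stack D E) ∧ NeverMonotone (stack E D)) ∧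
        ∀ E F : StringLinkDiagram n, NeverMonotone (stack (stack E D) F) :=
  main

end Pool.Agent.Results.MP_a283c1_gt.NonMonotoneIdeal
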